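import Pool.Agent.PSS.StmtsS1c

/-!
Squad PSS, row BLT (helper82): relative normalised bilinear maps lift.
-/

open scoped BigOperators TensorProduct

noncomputable section

namespace Pool.Agent.PSS.H82

open Pool.Agent.PFD.D2 (Cdv FibG)
open Pool.Agent.PFD.D2b (FrR)
open Finset

theorem bw_ap (R : Type) {V A : Type} [CommRing R] [CommGroup V] [Ring A] [Algebra R A]
    (α : V →* A) (u v : V) (a : A) : bw R α (u, v) a = α u * (a * α v⁻¹) := rfl

theorem rb_of_wb {F V A₀ : Type} [CommRing F] [CommGroup V] [Ring A₀] [Algebra F A₀]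
    (W : Subgroup V) (α₀ : V →* A₀) (μ₀ : A₀ →ₗ[F] A₀ →ₗ[F] A₀)
    (h : WB2 α₀ W (fun a b => μ₀ a b)) : RB (bw F (aw α₀ W)) μ₀ := by
  refine ⟨fun g x y => ?_, fun g x y => ?_, fun g x y => ?_⟩
  · rw [bw_ap, bw_ap, inv_one, map_one, mul_one, mul_one]
    exact (h _ g.2 x y).1
  · rw [bw_ap, bw_ap, inv_one, map_one, mul_one, one_mul]
    exact (h _ (g⁻¹).2 x y).2.1
  · rw [bw_ap, bw_ap, map_one, one_mul, one_mul]
    exact (h _ (g⁻¹).2 x y).2.2

theorem wb_of_rb {F V A₀ : Type} [CommRing F] [CommGroup V] [Ring A₀] [Algebra F A₀]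
    (W : Subgroup V) (α₀ : V →* A₀) (μ₀ : A₀ →ₗ[F] A₀ →ₗ[F] A₀)
    (h : RB (bw F (aw α₀ W)) μ₀) : WB2 α₀ W (fun a b => μ₀ a b) := by
  intro w hw x y
  refine ⟨?_, ?_, ?_⟩
  · have h1 := h.1 ⟨w, hw⟩ x y
    rw [bw_ap, bw_ap, inv_one, map_one, mul_one, mul_one] at h1
    exact h1
  · have h1 := h.2.1 (⟨w, hw⟩⁻¹ : W) x y
    rw [bw_ap, bw_ap, inv_one, map_one, mul_one, one_mul, inv_inv] at h1
    exact h1
  · have h1 := h.2.2 (⟨w, hw⟩⁻¹ : W) x y
    rw [bw_ap, bw_ap, map_one, one_mul, one_mul, inv_inv] at h1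
    exact h1

theorem blt (hb : BvlStmt) : BltStmt := by
  intro R F V A A₀ Ω _ _ _ _ _ _ _ _ _ W α b c cv f α₀ μ₀ hfr hα hw0 hn0
  letI act : MulAction (W × W) Ω := MulAction.compHom Ω (W.subtype.prodMap W.subtype)
  have hsm : ∀ (g : W × W) (ω : Ω), g • ω = (((g.1 : V), (g.2 : V)) : V × V) • ω :=
    fun g ω => rfl
  have hbw : ∀ (g : W × W), bw R (aw α W) g = bw R α ((g.1 : V), (g.2 : V)) := by
    intro g
    rfl
  have hfr' : FrR (bw R (aw α W)) b c := by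
    refine ⟨fun g t => ?_, fun g t n => ?_, hfr.2.2⟩
    · rw [hsm, hbw]
      exact hfr.1 _ t
    · rw [hsm, hbw]
      exact hfr.2.1 _ t n
  have hsc : ∀ (r : R) (x : A), f.q (r • x) = cv.κ r • f.q x := by
    intro r x
    rw [Algebra.smul_def, map_mul, f.sc, ← Algebra.smul_def]
  have hred : RedM cv (bw R (aw α W)) (bw F (aw α₀ W)) f.q.toAddMonoidHom := by
    refine ⟨hsc, f.surj, fun x => ⟨f.ker x, ?_⟩, ?_⟩
    · rintro ⟨y, rfl⟩
      show f.q (cv.π • y) = 0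
      rw [hsc, (cv.ker cv.π).2 ⟨1, (mul_one _).symm⟩, zero_smul]
    · intro g x
      show f.q (α (g.1 : V) * (x * α ((g.2⁻¹ : W) : V))) = α₀ (g.1 : V) * (f.q x * α₀ ((g.2⁻¹ : W) : V))
      rw [map_mul, map_mul, hα, hα]
  obtain ⟨μ, hμ, hμq⟩ := hb R F W A A₀ Ω cv (bw R (aw α W)) (bw F (aw α₀ W))
    f.q.toAddMonoidHom b c hfr' hred μ₀ (rb_of_wb W α₀ μ₀ hw0)
  have hW := wb_of_rb W α μ hμ
  have hq : ∀ x y, f.q (μ x y) = μ₀ (f.q x) (f.q y) := hμq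
  -- first correction
  let μ1 : A →ₗ[R] A →ₗ[R] A := μ - (LinearMap.mul R A).compl₂ (μ 1)
  have h1 : ∀ x y, μ1 x y = μ x y - x * μ 1 y := fun x y => rfl
  let μ2 : A →ₗ[R] A →ₗ[R] A := μ1 - (LinearMap.mul R A).comp (μ1.flip 1)
  have h2 : ∀ x y, μ2 x y = μ1 x y - μ1 x 1 * y := fun x y => rfl
  have hW1 : WB2 α W (fun a b => μ1 a b) := by
    intro w hw x y
    obtain ⟨a1, a2, a3⟩ := hW w hw x y
    beta_reduce at a1 a2 a3
    have e1 : μ 1 (α w * y) = α w * μ 1 y := by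
      have := (hW w hw 1 y).2.1
      have h' := (hW w hw 1 y).1
      beta_reduce at this h'
      rw [one_mul] at this
      rw [mul_one] at h'
      rw [← this, h']
    have e2 : μ 1 (y * α w) = μ 1 y * α w := (hW w hw 1 y).2.2
    refine ⟨?_, ?_, ?_⟩
    · show μ1 (α w * x) y = α w * μ1 x y
      rw [h1, h1, a1, mul_sub, mul_assoc]
    · show μ1 (x * α w) y = μ1 x (α w * y)
      rw [h1, h1, a2, e1, mul_assoc]
    · show μ1 x (y * α w) = μ1 x y * α w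
      rw [h1, h1, a3, e2, sub_mul, mul_assoc]
  have hz1 : ∀ y, μ1 1 y = 0 := fun y => by rw [h1, one_mul, sub_self]
  have hW2 : WB2 α W (fun a b => μ2 a b) := by
    intro w hw x y
    obtain ⟨a1, a2, a3⟩ := hW1 w hw x y
    obtain ⟨c1, c2, c3⟩ := hW1 w hw x 1
    beta_reduce at a1 a2 a3 c1 c2 c3
    refine ⟨?_, ?_, ?_⟩
    · show μ2 (α w * x) y = α w * μ2 x y
      rw [h2, h2, a1, c1, mul_sub, mul_assoc]
    · show μ2 (x * α w) y = μ2 x (α w * y)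
      have e : μ1 (x * α w) 1 = μ1 x 1 * α w := by
        rw [c2, mul_one]
        rw [one_mul] at c3
        exact c3
      rw [h2, h2, a2, e, mul_assoc]
    · show μ2 x (y * α w) = μ2 x y * α w
      rw [h2, h2, a3, sub_mul, mul_assoc]
  refine ⟨μ2, hW2, ⟨fun x => ?_, fun x => ?_⟩, fun a a' => ?_⟩
  · show μ2 1 x = 0
    rw [h2, hz1, hz1, zero_mul, sub_self]
  · show μ2 x 1 = 0
    rw [h2, mul_one, sub_self]
  · have n1 : ∀ y, μ₀ 1 y = 0 := hn0.1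
    have n2 : ∀ y, μ₀ y 1 = 0 := hn0.2
    have hq1 : ∀ x y, f.q (μ1 x y) = μ₀ (f.q x) (f.q y) := by
      intro x y
      rw [h1, map_sub, map_mul, hq, hq, map_one, n1, mul_zero, sub_zero]
    rw [h2, map_sub, map_mul, hq1, hq1, map_one, n2, zero_mul, sub_zero]

end Pool.Agent.PSS.H82
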