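import Pool.Agent.PSS.StmtsS1e

/-!
Squad PSS, row VZC (helper82): `Vz` from the complements.
-/

noncomputable section

namespace Pool.Agent.PSS.H82

theorem vzc : VzcStmt := by
  intro V E _ _ _ φ Y W h
  classical
  have hc := h.cmp
  have hcyc := h.cyc
  have hsw := h.sw
  obtain ⟨g, hg⟩ := hcyc.exists_generator
  have hz : Subgroup.zpowers (g : V) = Y := by
    ext x
    constructor
    · rintro ⟨n, rfl⟩
      exact Y.zpow_mem g.2 n
    · intro hx
      obtain ⟨n, hn⟩ := hg ⟨x, hx⟩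
      exact ⟨n, congrArg Subtype.val hn⟩
  refine ⟨(g : V), hz, ⟨?_, ?_, fun e w hw => hsw e w hw⟩, ?_, ?_⟩
  · intro v
    have hv : v ∈ Y ⊔ W := by
      rw [hc.sup_eq_top]
      exact Subgroup.mem_top v
    obtain ⟨y, hy, w, hw, rfl⟩ := Subgroup.mem_sup.1 hv
    rw [← hz, mem_zpowers_iff_mem_range_orderOf, Finset.mem_image] at hy
    obtain ⟨j, -, hj⟩ := hy
    exact ⟨j, w, hw, by rw [← hj]⟩
  · intro j hj
    have h1 : (g : V) ^ j ∈ Y ⊓ W := ⟨Y.pow_mem g.2 j, hj⟩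
    rw [hc.inf_eq_bot] at h1
    exact Subgroup.mem_bot.1 h1
  · rw [hz]
    exact hc
  · intro hY h1
    apply hY
    rw [← hz, h1, Subgroup.zpowers_one_eq_bot]

end Pool.Agent.PSS.H82
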